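import Pool.Agent.K6.H88.CM.Fin
import Pool.Agent.K6.H88.CM.CONT
import Pool.Agent.K6.H88.CM.END
import Pool.Agent.K6.H88.CM.LOG
import Pool.Agent.K6.H88.CM.MS
import Pool.Agent.K6.H88.CM.VK

/-!
# Partial sums of CMO functions: the exponent `1/2`, or infinitely many zeros

A function `f` is completely multiplicative if `f(1) = 1` and `f(mn) = f(m) f(n)`, and CMO if moreover
`∑ f(n)` converges with sum zero. Let `S_f(x)` be the sum of the `f(n)`, `n ≤ x`. The question was if
`S_f(x) = Ω(x ^ (-1/2))` for all CMO functions, which would imply the Generalised Riemann Hypothesis. It is settled,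
negatively, by the starting file `Pool/Agent/S17468.lean`; by its docstring the proof gives a CMO function with
`S_f(x) = O(x ^ (-1/2 - c))`, `c > 0`. The theorem here says what every counterexample of this kind must look like.

Theorem. For every completely multiplicative `f`, in particular for every CMO function, at least one of the
following holds.

(A) For every `ε > 0` the function `x ^ (1/2 + ε) |S_f(x)|` is unbounded (so `S_f(x) = Ω(x ^ (-1/2 - ε))`).

(B) For every `δ > 0` and every `T` there are complex numbers `s` with `Im s > T` and also with `Im s < -T`, such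
that `Re s > -1/2 - δ` and `n ↦ f(n) n ^ (-s)` is a CMO function: `∑ f(n) n ^ (-s) = 0`.

So a counterexample `f` to the question by a power of `x` has infinitely many twists `f(n) n ^ (-s)`,
`Re s > -1/2 - δ`, which are also CMO: its Dirichlet series `F(s) = ∑ f(n) n ^ (-s)` has infinitely many zeros
to the right of `-1/2 - δ`, with unbounded imaginary parts of both signs. For `f(n) = χ(n) n ^ (-α)` with
`L(α, χ) = 0` and `Re α > 1/2`, these are the zeros of the L-function on the critical line; the theorem says that
this happens for all `f`. In other words the question has a positive answer, up to `x ^ (-ε)`, for all CMO functions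
whose Dirichlet series satisfies such a zero condition: finitely many zeros with `Re s > -1/2 - δ` for one `δ > 0`,
or only no zeros with large imaginary part of one sign.

The proof. Assume that (A) does not hold. Then `S_f(x) = O(x ^ (-θ))` with `θ > 1/2`, `F` is analytic for
`Re s > -θ` and of linear growth, and `|f(p)| < 1`. If `F` has no zeros with `Re s > -1/2 - δ`, `Im s > T`, then
by Borel and Carathéodory `F' / F = O(log Im s)` for `Re s ≥ -1/2 - δ/2`, `Im s > T'`. We have
`-F' / F (s) = ∑ b(n) n ^ (-s)`, `b(n) = Λ(n) f(n)`, for `Re s > 1`. For `σ = -1/2 - δ/4` and large `N` the integral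
over the rectangle with the vertices `σ + i N^20`, `4 + 2 i N^20` of `-F' / F (s)` times the polynomial
`∑_{n ≤ N} conj(b(n)) n ^ (-2σ) n ^ s` gives, with the mean value theorem for Dirichlet polynomials,
`V = O(log N (V + 1) ^ (1/2))` for `V = ∑_{n ≤ N} |b(n)| ^ 2 n ^ (-2σ)`. So `V = O(log² N)`, and by the inequality of
Cauchy and Schwarz `∑_p |f(p)| < ∞`. Then `∑ f(n)` is absolutely convergent and equal to the product of the
`(1 - f(p)) ^ (-1)`, which is not zero.

The pieces CONT (helper3), END (helper78), LOG (helper70), VK (helper52) are in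
`Pool/Agent/K6/H88/CM/`. The lemma on zero free discs is from a starting file (W613).
-/

set_option autoImplicit false
set_option linter.all false

open Filter Topology Complex

namespace Pool.Agent.Results.MP_768c9c_nt.OmegaOrManyTwists

/-- The function `f` on the positive integers is completely multiplicative. -/
structure IsCompletelyMultiplicative (f : ℕ → ℂ) : Prop where
  one : f 1 = 1
  mul : ∀ m n : ℕ, 0 < m → 0 < n → f (m * n) = f m * f n

/-- The sum `S_f(N)` of the `f(n)`, `1 ≤ n ≤ N`. -/
noncomputable def partialSum (f : ℕ → ℂ) (N : ℕ) : ℂ := ∑ n ∈ Finset.Icc 1 N, f n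

/-- CMO function: completely multiplicative, and the series converges with sum zero. -/
structure IsCMO (f : ℕ → ℂ) : Prop where
  mult : IsCompletelyMultiplicative f
  sum : Tendsto (partialSum f) atTop (𝓝 0)

/-- The twist `f(n) n ^ (-s)`. -/
noncomputable def twist (f : ℕ → ℂ) (s : ℂ) (n : ℕ) : ℂ := f n * (n : ℂ) ^ (-s)

/-- For every `ε > 0` the function `x ^ (1/2 + ε) |S_f(x)|` is unbounded. -/
def AlmostOmega (f : ℕ → ℂ) : Prop :=
  ∀ ε : ℝ, 0 < ε → ∀ (C : ℝ) (N₀ : ℕ), ∃ N ≥ N₀, C * (N : ℝ) ^ (-(1 / 2 + ε)) < ‖partialSum f N‖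

/-- There are CMO twists `f(n) n ^ (-s)` with `Re s > -1/2 - δ` and with arbitrarily large positive and negative
imaginary part of `s`. -/
def ManyCMOTwists (f : ℕ → ℂ) : Prop :=
  ∀ δ : ℝ, 0 < δ → ∀ T : ℝ,
    (∃ s : ℂ, T < s.im ∧ -1 / 2 - δ < s.re ∧ IsCMO (twist f s)) ∧
    ∃ s : ℂ, s.im < -T ∧ -1 / 2 - δ < s.re ∧ IsCMO (twist f s)

theorem twist_mult {f : ℕ → ℂ} (hf : IsCompletelyMultiplicative f) (s : ℂ) :
    IsCompletelyMultiplicative (twist f s) := by
  refine ⟨by simp [twist, hf.one], fun m n hm hn => ?_⟩
  unfold twist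
  rw [hf.mul m n hm hn]
  have h1 : ((m * n : ℕ) : ℂ) ^ (-s) = (m : ℂ) ^ (-s) * (n : ℂ) ^ (-s) := by
    have := Complex.natCast_mul_natCast_cpow m n (-s)
    push_cast
    exact this
  rw [h1]
  ring

/-- For every completely multiplicative `f`, in particular for every CMO function: `x ^ (1/2 + ε) |S_f(x)|` is
unbounded for all `ε > 0`, or `f` has CMO twists `f(n) n ^ (-s)`, `Re s > -1/2 - δ`, with unbounded imaginary part
of both signs, for all `δ > 0`. -/
theorem result (f : ℕ → ℂ) (hf : IsCompletelyMultiplicative f) : AlmostOmega f ∨ ManyCMOTwists f := by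
  have h := Pool.Agent.K6.H88.CM.dich Pool.Agent.K6.H88.CM.t_CONT Pool.Agent.K6.H88.CM.t_END
    Pool.Agent.K6.H88.CM.t_LOG Pool.Agent.K6.H88.CM.t_MS Pool.Agent.K6.H88.CM.t_VK (f := f) ⟨hf.one, hf.mul⟩
  rcases h with h | h
  · exact Or.inl h
  · refine Or.inr fun δ hδ T => ?_
    obtain ⟨⟨s, h1, h2, h3⟩, s', h1', h2', h3'⟩ := h δ hδ T
    exact ⟨⟨s, h1, h2, twist_mult hf s, h3⟩, s', h1', h2', twist_mult hf s', h3'⟩

end Pool.Agent.Results.MP_768c9c_nt.OmegaOrManyTwists
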